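import Pool.Agent.Helper96.CK.ExpB

set_option autoImplicit false
open MeasureTheory Set Filter
open scoped Real Topology ContDiff

/-! The exponent lemma, `ε₁` chosen before the family. -/

namespace Pool.Agent.Helper96.CK

/-- the hypothesis at one `ε₁` -/
def WindowAt {ι : Type*} (G : ι → ℝ → ℝ) (θ C₀ ε₁ : ℝ) : Prop :=
  ∃ C₁ : ℝ, 0 ≤ C₁ ∧ ∀ n : ℝ, 1 ≤ n → ∀ w : ℝ → ℝ, ContDiff ℝ ∞ w →
    (∀ l, 0 ≤ w l) → (∀ l, l ∉ Set.Icc n (2 * n) → w l = 0) → (∃ l, 0 < w l) →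
    ∀ η : ℝ, 0 < η → ∃ i,
      (∀ j, (1 - η) * ∫ l in n..(2 * n), Real.exp (G j l) * w l ≤
        ∫ l in n..(2 * n), Real.exp (G i l) * w l) ∧
      ∫ l in n..(2 * n), Real.exp (G i l) * w l * G i l ≤
        (∫ l in n..(2 * n), Real.exp (G i l) * w l * (C₁ + ε₁ * n + C₀ * (l - n))) +
          (θ * n + C₁) * (∫ l in n..(2 * n), Real.exp (G i l) * |deriv w l|) + η

/-- **Exponent bookkeeping.** -/
theorem exp_lemma3 {θ C₀ : ℝ} (hθ0 : 0 ≤ θ) (hθ : θ < 1) (hC₀ : 0 ≤ C₀) :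
    ∀ e : ℝ, 0 < e → ∃ ε₁ : ℝ, 0 < ε₁ ∧ ∀ {ι : Type} {G : ι → ℝ → ℝ} {A : ℝ}, 0 ≤ A →
      (∀ i, G i 0 ≤ A) →
      (∀ i l l', 0 ≤ l → 0 ≤ l' → |G i l - G i l'| ≤ A * |l - l'|) →
      WindowAt G θ C₀ ε₁ → ∃ K : ℝ, ∀ i l, 0 ≤ l → G i l ≤ K + e * l := by
  intro e he
  have h1θ : 0 < 1 - θ := by linarith
  obtain ⟨ε₁, hε₁def⟩ : ∃ ε₁, ε₁ = e * (1 - θ) / 4 := ⟨_, rfl⟩
  have hε₁ : 0 < ε₁ := by rw [hε₁def]; positivity
  refine ⟨ε₁, hε₁, ?_⟩
  intro ι G A hA0 hA hL H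
  by_contra hcon
  push Not at hcon
  set E : Set ℝ := {e | 0 ≤ e ∧ ∃ K : ℝ, ∀ i l, 0 ≤ l → G i l ≤ K + e * l} with hE
  have hup : ∀ a b, a ∈ E → a ≤ b → b ∈ E := by
    rintro a b ⟨ha, K, hK⟩ hab
    refine ⟨ha.trans hab, K, fun i l hl => (hK i l hl).trans ?_⟩
    have := mul_le_mul_of_nonneg_right hab hl
    linarith
  have hAE : A ∈ E := by
    refine ⟨hA0, A, fun i l hl => ?_⟩
    have h1 := (abs_le.mp (hL i l 0 hl le_rfl)).2
    rw [sub_zero, abs_of_nonneg hl] at h1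
    linarith [hA i]
  have hbdd : BddBelow E := ⟨0, fun x hx => hx.1⟩
  obtain ⟨γ, hγdef⟩ : ∃ γ, γ = sInf E := ⟨_, rfl⟩
  have hγe : e ≤ γ := by
    rw [hγdef]
    refine le_csInf ⟨A, hAE⟩ fun a ha => ?_
    by_contra hlt
    push Not at hlt
    obtain ⟨-, K, hK⟩ := hup a e ha hlt.le
    obtain ⟨i, l, hl, h⟩ := hcon K
    exact absurd (hK i l hl) (not_le.mpr h)
  have hγ0 : 0 < γ := lt_of_lt_of_le he hγe
  -- the parameters
  obtain ⟨C₁, hC₁, HC⟩ := H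
  have hε₁γ : ε₁ ≤ γ * (1 - θ) / 4 := by
    rw [hε₁def]
    have := mul_le_mul_of_nonneg_right hγe h1θ.le
    linarith
  set ε : ℝ := min (1 / 3) (γ * (1 - θ) / (4 * (γ + 3 + 2 * C₀))) with hεdef
  have hden : 0 < γ + 3 + 2 * C₀ := by positivity
  have hε : 0 < ε := by
    rw [hεdef]
    exact lt_min (by norm_num) (by positivity)
  have hε3 : ε ≤ 1 / 3 := min_le_left _ _
  have hε4 : ε * (γ + 3 + 2 * C₀) ≤ γ * (1 - θ) / 4 := by
    have : ε ≤ γ * (1 - θ) / (4 * (γ + 3 + 2 * C₀)) := min_le_right _ _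
    rw [le_div_iff₀ (by positivity)] at this
    linarith
  set δ : ℝ := ε / 12 with hδdef
  have hδ0 : 0 < δ := by positivity
  have hδε : δ ≤ ε / 12 := le_rfl
  have hδsq : δ ^ 2 ≤ ε := by
    rw [hδdef]; nlinarith
  have hεγ : ε < γ := by
    have h1 : ε * 3 ≤ ε * (γ + 3 + 2 * C₀) := mul_le_mul_of_nonneg_left (by linarith) hε.le
    have h2 : γ * (1 - θ) / 4 ≤ γ / 4 := by nlinarith
    linarith
  set β : ℝ := γ * (1 - ε) - δ ^ 2 - ε₁ - 2 * C₀ * ε - θ * (γ + δ) with hβdef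
  have hβ : 0 < β := by
    have h1 : θ * δ ≤ ε := by
      have : θ * δ ≤ 1 * δ := mul_le_mul_of_nonneg_right hθ.le hδ0.le
      linarith
    have h2 : 0 < γ * (1 - θ) / 4 := by positivity
    have h3 : β = γ * (1 - θ) - ε₁ - (ε * (γ + 2 * C₀) + δ ^ 2 + θ * δ) := by
      rw [hβdef]; ring
    have h4 : ε * (γ + 3 + 2 * C₀) = ε * (γ + 2 * C₀) + 3 * ε := by ring
    linarith
  -- upper bound
  have hplus : γ + δ ^ 2 ∈ E := by
    have : sInf E < γ + δ ^ 2 := by rw [← hγdef]; nlinarith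
    obtain ⟨a, ha, hlt⟩ := exists_lt_of_csInf_lt ⟨A, hAE⟩ this
    exact hup a _ ha hlt.le
  obtain ⟨-, K, hK⟩ := hplus
  have hminus : γ - δ ^ 2 ∉ E := by
    intro hm
    have h1 := csInf_le hbdd hm
    rw [← hγdef] at h1
    nlinarith
  obtain ⟨χ, D, b1, b2, b3, b4, b5, b6, b7⟩ := exists_bump
  have hD0 : 0 ≤ D := (abs_nonneg _).trans (b6 0)
  set Q : ℝ := C₁ + (A + γ + 2 * δ) + C₁ * (γ + δ) + 1 with hQ
  set S : ℝ → ℝ := fun N => D / ε * Real.exp (K + (A + γ + 2 * δ) - δ * ε / 4 * N) with hS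
  have hSlim : Tendsto S atTop (𝓝 0) := by
    have h1 : Tendsto (fun N : ℝ => K + (A + γ + 2 * δ) - δ * ε / 4 * N) atTop atBot := by
      refine tendsto_const_nhds.add_atBot ?_ |>.congr fun N => (sub_eq_add_neg _ _).symm
      exact tendsto_neg_atTop_atBot.comp
        (tendsto_id.const_mul_atTop (by positivity : 0 < δ * ε / 4))
    have h2 := (Real.tendsto_exp_atBot.comp h1).const_mul (D / ε)
    simpa using h2
  have e1 : ∀ᶠ N in atTop, Real.log N ≤ β / 8 * N := by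
    have := Real.isLittleO_log_id_atTop.bound (show (0:ℝ) < β / 8 by positivity)
    filter_upwards [this, eventually_ge_atTop (1:ℝ)] with N h1 h2
    simp only [id, Real.norm_eq_abs] at h1
    rw [abs_of_nonneg (by linarith : (0:ℝ) ≤ N)] at h1
    exact (le_abs_self _).trans h1
  have e2 : ∀ᶠ N in atTop, Q ≤ β / 8 * N :=
    (tendsto_id.const_mul_atTop (by positivity : 0 < β / 8)).eventually_ge_atTop Q
  have e3 : ∀ᶠ N in atTop, θ * S N ≤ β / 8 := by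
    have h1 : Tendsto (fun N => θ * S N) atTop (𝓝 (θ * 0)) := hSlim.const_mul θ
    rw [mul_zero] at h1
    exact h1.eventually_le_const (by positivity)
  have e4 : ∀ᶠ N in atTop, C₁ * S N ≤ β / 8 := by
    have h1 : Tendsto (fun N => C₁ * S N) atTop (𝓝 (C₁ * 0)) := hSlim.const_mul C₁
    rw [mul_zero] at h1
    exact h1.eventually_le_const (by positivity)
  obtain ⟨N₀, hN₀⟩ := eventually_atTop.mp (e1.and (e2.and (e3.and (e4.and
    ((tendsto_id.const_mul_atTop hε).eventually_ge_atTop (2:ℝ) |>.and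
      (eventually_ge_atTop (1:ℝ)))))))
  obtain ⟨i₀, N, hN0, hNG⟩ : ∃ i₀ N, 0 ≤ N ∧ |K| + 2 * δ ^ 2 * |N₀| + (γ - δ ^ 2) * N < G i₀ N := by
    by_contra hno
    push Not at hno
    exact hminus ⟨by nlinarith, |K| + 2 * δ ^ 2 * |N₀|, fun i l hl => hno i l hl⟩
  have hNN : N₀ ≤ N := by
    have h1 := hK i₀ N hN0
    have h2 : 2 * δ ^ 2 * |N₀| < 2 * δ ^ 2 * N := by
      have := le_abs_self K
      linarith
    have h3 : |N₀| < N := lt_of_mul_lt_mul_left h2 (by positivity)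
    exact (le_abs_self _).trans h3.le
  obtain ⟨f1, f2, f3, f4, f5, f6⟩ := hN₀ N hNN
  have hG : (γ - δ ^ 2) * N ≤ G i₀ N := by
    have : 0 ≤ |K| + 2 * δ ^ 2 * |N₀| := by positivity
    linarith
  have f5' : 2 ≤ ε * N := f5
  have hmain := one_window2 hA0 hL hε₁.le hθ0 hC₀ hC₁ hγ0.le hδdef hε hε3 f5' b1 b2 b3 b4 b5 b6 b7 hK hG HC
  have hS0 : 0 ≤ S N := by simp only [hS]; positivity
  have g1 : (θ * N + C₁) * S N ≤ β / 8 * N + β / 8 := by
    have : θ * S N * N ≤ β / 8 * N := mul_le_mul_of_nonneg_right f3 hN0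
    nlinarith
  have g2 : N * β ≤ Q + Real.log N + (θ * N + C₁) * S N := by
    rw [← hβdef] at hmain
    simp only [hS, hQ]
    linarith
  nlinarith

end Pool.Agent.Helper96.CK
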