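import Mathlib

set_option autoImplicit false
open MeasureTheory Set Filter
open scoped Real Topology ContDiff

/-! Project CK: the bookkeeping of the exponents, an abstract lemma on families of Lipschitz
functions with an approximate maximum principle in windows. -/

namespace Pool.Agent.Helper96.CK

/-- the weight of the window around `N` -/
noncomputable def wt (γ δ ε N : ℝ) (χ : ℝ → ℝ) (l : ℝ) : ℝ :=
  Real.exp (-(γ * l) - δ * Real.sqrt (1 + (l - N) ^ 2)) * χ ((l - N) / (ε * N))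

lemma sqrt_hasDeriv (N l : ℝ) :
    HasDerivAt (fun l : ℝ => Real.sqrt (1 + (l - N) ^ 2))
      ((l - N) / Real.sqrt (1 + (l - N) ^ 2)) l := by
  have h1 : HasDerivAt (fun l : ℝ => 1 + (l - N) ^ 2) (2 * (l - N)) l := by
    have := ((hasDerivAt_id l).sub_const N).pow 2
    simp only [id] at this
    have h := this.const_add 1
    refine h.congr_deriv ?_
    simp
  have h2 : (1 + (l - N) ^ 2) ≠ 0 := by positivity
  have h3 := h1.sqrt h2
  refine h3.congr_deriv ?_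
  have : Real.sqrt (1 + (l - N) ^ 2) ≠ 0 := by positivity
  field_simp

lemma wt_hasDeriv {γ δ ε N : ℝ} {χ : ℝ → ℝ} (hχ : Differentiable ℝ χ) (l : ℝ) :
    HasDerivAt (wt γ δ ε N χ)
      ((-γ - δ * ((l - N) / Real.sqrt (1 + (l - N) ^ 2))) * wt γ δ ε N χ l +
        Real.exp (-(γ * l) - δ * Real.sqrt (1 + (l - N) ^ 2)) *
          (deriv χ ((l - N) / (ε * N)) / (ε * N))) l := by
  have h1 : HasDerivAt (fun l : ℝ => -(γ * l) - δ * Real.sqrt (1 + (l - N) ^ 2))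
      (-γ - δ * ((l - N) / Real.sqrt (1 + (l - N) ^ 2))) l := by
    have a := ((hasDerivAt_id l).const_mul γ).neg
    have b := (sqrt_hasDeriv N l).const_mul δ
    have c := a.sub b
    refine c.congr_deriv ?_
    simp
  have h2 := h1.exp
  have h3 : HasDerivAt (fun l : ℝ => (l - N) / (ε * N)) (1 / (ε * N)) l :=
    ((hasDerivAt_id l).sub_const N).div_const (ε * N)
  have h4 : HasDerivAt (fun l : ℝ => χ ((l - N) / (ε * N)))
      (deriv χ ((l - N) / (ε * N)) * (1 / (ε * N))) l :=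
    (hχ ((l - N) / (ε * N))).hasDerivAt.comp l h3
  have h5 := h2.mul h4
  refine h5.congr_deriv ?_
  unfold wt
  ring

lemma wt_contDiff {γ δ ε N : ℝ} {χ : ℝ → ℝ} (hχ : ContDiff ℝ ∞ χ) :
    ContDiff ℝ ∞ (wt γ δ ε N χ) := by
  unfold wt
  have h1 : ContDiff ℝ ∞ (fun l : ℝ => Real.sqrt (1 + (l - N) ^ 2)) := by
    refine ContDiff.sqrt (by fun_prop) fun l => ?_
    positivity
  have h2 : ContDiff ℝ ∞ (fun l : ℝ => χ ((l - N) / (ε * N))) :=
    hχ.comp (by fun_prop)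
  have h3 : ContDiff ℝ ∞ (fun l : ℝ => -(γ * l) - δ * Real.sqrt (1 + (l - N) ^ 2)) :=
    (contDiff_const.mul contDiff_id).neg.sub (contDiff_const.mul h1)
  exact (Real.contDiff_exp.comp h3).mul h2

lemma abs_slope (N l : ℝ) : |(l - N) / Real.sqrt (1 + (l - N) ^ 2)| ≤ 1 := by
  rw [abs_div, abs_of_nonneg (Real.sqrt_nonneg _)]
  rw [div_le_one (by positivity)]
  exact Real.abs_le_sqrt (by linarith)

lemma abs_le_sqrt' (N l : ℝ) : |l - N| ≤ Real.sqrt (1 + (l - N) ^ 2) :=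
  Real.abs_le_sqrt (by linarith)

/-- pointwise bound for the derivative of the weight -/
lemma wt_deriv_le {γ δ ε N D : ℝ} {χ : ℝ → ℝ} (hγ : 0 ≤ γ) (hδ : 0 ≤ δ) (hε : 0 < ε) (hN : 0 < N)
    (hχ : Differentiable ℝ χ) (hχ0 : ∀ x, 0 ≤ χ x) (hD : ∀ x, |deriv χ x| ≤ D)
    (hin : ∀ x, |x| < 1 / 2 → deriv χ x = 0) (l : ℝ) :
    |deriv (wt γ δ ε N χ) l| ≤ (γ + δ) * wt γ δ ε N χ l +
      Real.exp (-(γ * l) - δ * (ε * N / 2)) * (D / (ε * N)) := by
  have hD0 : 0 ≤ D := (abs_nonneg _).trans (hD 0)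
  rw [(wt_hasDeriv hχ l).deriv]
  have hw : 0 ≤ wt γ δ ε N χ l := mul_nonneg (Real.exp_pos _).le (hχ0 _)
  refine (abs_add_le _ _).trans (add_le_add ?_ ?_)
  · rw [abs_mul, abs_of_nonneg hw]
    refine mul_le_mul_of_nonneg_right ?_ hw
    refine (abs_sub _ _).trans ?_
    rw [abs_neg, abs_of_nonneg hγ, abs_mul, abs_of_nonneg hδ]
    have := abs_slope N l
    nlinarith
  · rw [abs_mul, abs_of_nonneg (Real.exp_pos _).le, abs_div, abs_of_pos (mul_pos hε hN)]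
    by_cases hx : |(l - N) / (ε * N)| < 1 / 2
    · rw [hin _ hx]
      simp only [abs_zero, zero_div, mul_zero]
      positivity
    · push Not at hx
      rw [abs_div, abs_of_pos (mul_pos hε hN), le_div_iff₀ (mul_pos hε hN)] at hx
      have h1 := abs_le_sqrt' N l
      refine mul_le_mul ?_ ?_ (by positivity) (Real.exp_pos _).le
      · refine Real.exp_le_exp.mpr ?_
        have : δ * (ε * N / 2) ≤ δ * Real.sqrt (1 + (l - N) ^ 2) :=
          mul_le_mul_of_nonneg_left (by linarith) hδ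
        linarith
      · exact div_le_div_of_nonneg_right (hD _) (mul_pos hε hN).le

end Pool.Agent.Helper96.CK

namespace Pool.Agent.Helper96.CK

/-- the hypothesis of the lemma: an approximate maximum principle in the window `[n, 2n]` -/
def Window {ι : Type*} (G : ι → ℝ → ℝ) (θ C₀ : ℝ) : Prop :=
  ∀ ε₁ : ℝ, 0 < ε₁ → ∃ C₁ : ℝ, 0 ≤ C₁ ∧ ∀ n : ℝ, 1 ≤ n → ∀ w : ℝ → ℝ, ContDiff ℝ ∞ w →
    (∀ l, 0 ≤ w l) → (∀ l, l ∉ Set.Icc n (2 * n) → w l = 0) → (∃ l, 0 < w l) →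
    ∀ η : ℝ, 0 < η → ∃ i,
      (∀ j, (1 - η) * ∫ l in n..(2 * n), Real.exp (G j l) * w l ≤
        ∫ l in n..(2 * n), Real.exp (G i l) * w l) ∧
      ∫ l in n..(2 * n), Real.exp (G i l) * w l * G i l ≤
        (∫ l in n..(2 * n), Real.exp (G i l) * w l * (C₁ + ε₁ * n + C₀ * (l - n))) +
          (θ * n + C₁) * (∫ l in n..(2 * n), Real.exp (G i l) * |deriv w l|) + η

/-- the real inequality at the end of the proof -/
lemma arith_end {J Rm n N γ δ ε θ C₀ C₁ B₁ η S : ℝ} (hJ : 0 < J) (hN : 1 ≤ N)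
    (hn : n = (1 - ε) * N) (hn1 : 1 ≤ n) (hγ : 0 ≤ γ) (hδ : 0 ≤ δ) (hε : 0 ≤ ε) (hθ : 0 ≤ θ)
    (hC₁ : 0 ≤ C₁)
    (hJl : Real.exp (-(δ ^ 2 * N) - B₁) ≤ J) (hη : η ≤ Real.exp (-(δ ^ 2 * N) - B₁))
    (hRm : Rm ≤ J * S)
    (h : J * (Real.log J - Real.log n + γ * n) ≤
      J * (C₁ + ε * n + C₀ * (2 * ε * N)) + (θ * n + C₁) * ((γ + δ) * J + Rm) + η) :
    N * (γ * (1 - ε) - δ ^ 2 - ε - 2 * C₀ * ε - θ * (γ + δ)) ≤
      C₁ + B₁ + Real.log N + C₁ * (γ + δ) + 1 + (θ * N + C₁) * max S 0 := by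
  have hnN : n ≤ N := by rw [hn]; nlinarith
  have hlogJ : -(δ ^ 2 * N) - B₁ ≤ Real.log J := by
    rw [Real.le_log_iff_exp_le hJ]; exact hJl
  have hlogn : Real.log n ≤ Real.log N := Real.log_le_log (by linarith) hnN
  have h0 : 0 ≤ θ * n + C₁ := by positivity
  have h1 : (θ * n + C₁) * ((γ + δ) * J + Rm) ≤ J * ((θ * n + C₁) * ((γ + δ) + max S 0)) := by
    have : (γ + δ) * J + Rm ≤ J * ((γ + δ) + max S 0) := by
      have : J * S ≤ J * max S 0 := mul_le_mul_of_nonneg_left (le_max_left _ _) hJ.le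
      nlinarith
    calc _ ≤ (θ * n + C₁) * (J * ((γ + δ) + max S 0)) := mul_le_mul_of_nonneg_left this h0
      _ = _ := by ring
  have h2 : η ≤ J * 1 := by linarith
  have h3 : J * (Real.log J - Real.log n + γ * n) ≤
      J * (C₁ + ε * n + C₀ * (2 * ε * N) + (θ * n + C₁) * ((γ + δ) + max S 0) + 1) := by
    linarith
  have h4 := le_of_mul_le_mul_left h3 hJ
  have hm : 0 ≤ max S 0 := le_max_right _ _
  have h5 : (θ * n + C₁) * ((γ + δ) + max S 0) ≤ (θ * N + C₁) * ((γ + δ) + max S 0) := by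
    refine mul_le_mul_of_nonneg_right ?_ (by positivity)
    nlinarith
  have h6 : ε * n ≤ ε * N := mul_le_mul_of_nonneg_left hnN hε
  have h7 : γ * n = γ * (1 - ε) * N := by rw [hn]; ring
  nlinarith

end Pool.Agent.Helper96.CK
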