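import Pool.Agent.Helper96.CK.Exp

set_option autoImplicit false
open MeasureTheory Set Filter
open scoped Real Topology ContDiff

namespace Pool.Agent.Helper96.CK

/-- the pointwise form of Jensen's inequality -/
lemma pointwise_log {a g w γ l : ℝ} (ha : 0 < a) (hw0 : 0 ≤ w) (hw : w ≤ Real.exp (-(γ * l))) :
    Real.exp g * w * (Real.log a + 1 + γ * l) - a ≤ Real.exp g * w * g := by
  rcases hw0.eq_or_lt with h | h
  · rw [← h]; simp [ha.le]
  · set F := Real.exp g * w with hF
    have hF0 : 0 < F := mul_pos (Real.exp_pos _) h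
    have h1 : Real.log F ≤ g - γ * l := by
      rw [hF, Real.log_mul (Real.exp_pos _).ne' h.ne', Real.log_exp]
      have : Real.log w ≤ -(γ * l) := by
        rw [Real.log_le_iff_le_exp h]; exact hw
      linarith
    have h2 : Real.log (a / F) ≤ a / F - 1 := Real.log_le_sub_one_of_pos (div_pos ha hF0)
    rw [Real.log_div ha.ne' hF0.ne'] at h2
    have h3 : F * (Real.log a - Real.log F) ≤ F * (a / F - 1) :=
      mul_le_mul_of_nonneg_left h2 hF0.le
    have h4 : F * (a / F - 1) = a - F := by field_simp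
    rw [h4] at h3
    have h5 : F * Real.log F ≤ F * (g - γ * l) := mul_le_mul_of_nonneg_left h1 hF0.le
    nlinarith

section window

variable {ι : Type*} {G : ι → ℝ → ℝ} {A : ℝ}

lemma G_cont (hL : ∀ i l l', 0 ≤ l → 0 ≤ l' → |G i l - G i l'| ≤ A * |l - l'|) (i : ι) :
    ContinuousOn (G i) (Ici 0) := by
  have h : LipschitzOnWith (Real.toNNReal A) (G i) (Ici 0) := by
    refine LipschitzOnWith.of_dist_le_mul fun x hx y hy => ?_
    rw [Real.dist_eq, Real.dist_eq]
    refine (hL i x y hx hy).trans ?_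
    refine mul_le_mul_of_nonneg_right ?_ (abs_nonneg _)
    exact Real.le_coe_toNNReal A
  exact h.continuousOn

/-- lower bound for the integral of `F G` -/
lemma lower_int {n γ : ℝ} (hn : 1 ≤ n) (hγ : 0 ≤ γ)
    (hL : ∀ i l l', 0 ≤ l → 0 ≤ l' → |G i l - G i l'| ≤ A * |l - l'|) (i : ι)
    {w : ℝ → ℝ} (hw : Continuous w) (hw0 : ∀ l, 0 ≤ w l)
    (hwe : ∀ l, w l ≤ Real.exp (-(γ * l)))
    (hJ : 0 < ∫ l in n..(2 * n), Real.exp (G i l) * w l) :
    (∫ l in n..(2 * n), Real.exp (G i l) * w l) *
        (Real.log (∫ l in n..(2 * n), Real.exp (G i l) * w l) - Real.log n + γ * n) ≤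
      ∫ l in n..(2 * n), Real.exp (G i l) * w l * G i l := by
  set J := ∫ l in n..(2 * n), Real.exp (G i l) * w l with hJdef
  have hn0 : 0 < n := by linarith
  have hle : n ≤ 2 * n := by linarith
  have hsub : Set.uIcc n (2 * n) ⊆ Ici 0 := by
    rw [Set.uIcc_of_le hle]
    intro x hx
    exact le_trans hn0.le hx.1
  have cG : ContinuousOn (G i) (Set.uIcc n (2 * n)) := (G_cont hL i).mono hsub
  have cF : ContinuousOn (fun l => Real.exp (G i l) * w l) (Set.uIcc n (2 * n)) :=
    (cG.rexp).mul hw.continuousOn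
  have iF : IntervalIntegrable (fun l => Real.exp (G i l) * w l) volume n (2 * n) :=
    cF.intervalIntegrable
  have cl : ContinuousOn (fun l : ℝ => l) (Set.uIcc n (2 * n)) := continuousOn_id
  have h1 : ∫ l in n..(2 * n), (Real.exp (G i l) * w l * (Real.log (J / n) + 1 + γ * n) - J / n) ≤
      ∫ l in n..(2 * n), Real.exp (G i l) * w l * G i l := by
    refine intervalIntegral.integral_mono_on hle ?_ ?_ ?_
    · exact ((cF.mul continuousOn_const).sub continuousOn_const).intervalIntegrable
    · exact (cF.mul cG).intervalIntegrable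
    · intro l hl
      have h2 := pointwise_log (g := G i l) (div_pos hJ hn0) (hw0 l) (hwe l)
      have h3 : 0 ≤ Real.exp (G i l) * w l := mul_nonneg (Real.exp_pos _).le (hw0 l)
      have h4 : γ * n ≤ γ * l := mul_le_mul_of_nonneg_left hl.1 hγ
      nlinarith
  have h2 : ∫ l in n..(2 * n), (Real.exp (G i l) * w l * (Real.log (J / n) + 1 + γ * n) - J / n) =
      J * (Real.log (J / n) + 1 + γ * n) - J := by
    rw [intervalIntegral.integral_sub (iF.mul_const _) (by simp), intervalIntegral.integral_mul_const,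
      intervalIntegral.integral_const, smul_eq_mul]
    congr 1
    field_simp
    ring
  rw [h2, Real.log_div hJ.ne' hn0.ne'] at h1
  linarith

end window

end Pool.Agent.Helper96.CK
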