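import Pool.Agent.Helper96.CK.Exp2

set_option autoImplicit false
open MeasureTheory Set Filter
open scoped Real Topology ContDiff

namespace Pool.Agent.Helper96.CK

section window

variable {ι : Type*} {G : ι → ℝ → ℝ} {A : ℝ}

lemma upper_int1 {n N ε ε₁ C₀ C₁ : ℝ} (hn : 1 ≤ n) (hN : n = (1 - ε) * N) (hC₀ : 0 ≤ C₀)
    (hL : ∀ i l l', 0 ≤ l → 0 ≤ l' → |G i l - G i l'| ≤ A * |l - l'|) (i : ι)
    {w : ℝ → ℝ} (hw : Continuous w) (hw0 : ∀ l, 0 ≤ w l)
    (hws : ∀ l, (1 + ε) * N < l → w l = 0) :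
    (∫ l in n..(2 * n), Real.exp (G i l) * w l * (C₁ + ε₁ * n + C₀ * (l - n))) ≤
      (∫ l in n..(2 * n), Real.exp (G i l) * w l) * (C₁ + ε₁ * n + C₀ * (2 * ε * N)) := by
  have hn0 : 0 < n := by linarith
  have hle : n ≤ 2 * n := by linarith
  have hsub : Set.uIcc n (2 * n) ⊆ Ici 0 := by
    rw [Set.uIcc_of_le hle]
    intro x hx
    exact le_trans hn0.le hx.1
  have cG : ContinuousOn (G i) (Set.uIcc n (2 * n)) := (G_cont hL i).mono hsub
  have cF : ContinuousOn (fun l => Real.exp (G i l) * w l) (Set.uIcc n (2 * n)) :=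
    (cG.rexp).mul hw.continuousOn
  rw [← intervalIntegral.integral_mul_const]
  refine intervalIntegral.integral_mono_on hle ?_ ?_ ?_
  · exact (cF.mul (by fun_prop)).intervalIntegrable
  · exact (cF.mul continuousOn_const).intervalIntegrable
  · intro l hl
    by_cases h : (1 + ε) * N < l
    · simp [hws l h]
    · push Not at h
      refine mul_le_mul_of_nonneg_left ?_ (mul_nonneg (Real.exp_pos _).le (hw0 l))
      have : C₀ * (l - n) ≤ C₀ * (2 * ε * N) := by
        refine mul_le_mul_of_nonneg_left ?_ hC₀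
        rw [hN]; linarith
      linarith

lemma upper_int2 {n N γ δ ε D K : ℝ} (hn : 1 ≤ n) (hN : n ≤ N) (hε : 0 < ε) (hD : 0 ≤ D)
    (hL : ∀ i l l', 0 ≤ l → 0 ≤ l' → |G i l - G i l'| ≤ A * |l - l'|) (i : ι)
    (hK : ∀ l, 0 ≤ l → G i l ≤ K + (γ + δ ^ 2) * l)
    {w : ℝ → ℝ} (hw : ContDiff ℝ ∞ w)
    (hwd : ∀ l, |deriv w l| ≤ (γ + δ) * w l +
      Real.exp (-(γ * l) - δ * (ε * N / 2)) * (D / (ε * N))) :
    (∫ l in n..(2 * n), Real.exp (G i l) * |deriv w l|) ≤
      (γ + δ) * (∫ l in n..(2 * n), Real.exp (G i l) * w l) +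
        D / ε * Real.exp (K + 2 * δ ^ 2 * N - δ * (ε * N / 2)) := by
  have hn0 : 0 < n := by linarith
  have hN0 : 0 < N := by linarith
  have hle : n ≤ 2 * n := by linarith
  have hsub : Set.uIcc n (2 * n) ⊆ Ici 0 := by
    rw [Set.uIcc_of_le hle]
    intro x hx
    exact le_trans hn0.le hx.1
  have cG : ContinuousOn (G i) (Set.uIcc n (2 * n)) := (G_cont hL i).mono hsub
  have cF : ContinuousOn (fun l => Real.exp (G i l) * w l) (Set.uIcc n (2 * n)) :=
    (cG.rexp).mul hw.continuous.continuousOn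
  have cd : Continuous (deriv w) := hw.continuous_deriv (by simp)
  have h1 : (∫ l in n..(2 * n), Real.exp (G i l) * |deriv w l|) ≤
      ∫ l in n..(2 * n), ((γ + δ) * (Real.exp (G i l) * w l) +
        Real.exp (K + 2 * δ ^ 2 * N - δ * (ε * N / 2)) * (D / (ε * N))) := by
    refine intervalIntegral.integral_mono_on hle ?_ ?_ ?_
    · exact ((cG.rexp).mul cd.abs.continuousOn).intervalIntegrable
    · exact ((continuousOn_const.mul cF).add continuousOn_const).intervalIntegrable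
    · intro l hl
      have h2 := mul_le_mul_of_nonneg_left (hwd l) (Real.exp_pos (G i l)).le
      have h3 : Real.exp (G i l) * (Real.exp (-(γ * l) - δ * (ε * N / 2)) * (D / (ε * N))) ≤
          Real.exp (K + 2 * δ ^ 2 * N - δ * (ε * N / 2)) * (D / (ε * N)) := by
        rw [← mul_assoc, ← Real.exp_add]
        refine mul_le_mul_of_nonneg_right (Real.exp_le_exp.mpr ?_) (by positivity)
        have h4 := hK l (by linarith [hl.1])
        have h5 : δ ^ 2 * l ≤ δ ^ 2 * (2 * N) :=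
          mul_le_mul_of_nonneg_left (by linarith [hl.2]) (sq_nonneg δ)
        linarith
      calc _ ≤ _ := h2
        _ = (γ + δ) * (Real.exp (G i l) * w l) + Real.exp (G i l) *
            (Real.exp (-(γ * l) - δ * (ε * N / 2)) * (D / (ε * N))) := by ring
        _ ≤ _ := by linarith
  refine h1.trans ?_
  have i1 : IntervalIntegrable (fun l => (γ + δ) * (Real.exp (G i l) * w l)) volume n (2 * n) :=
    (continuousOn_const.mul cF).intervalIntegrable
  rw [intervalIntegral.integral_add i1 (by simp),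
    intervalIntegral.integral_const_mul, intervalIntegral.integral_const, smul_eq_mul]
  refine add_le_add le_rfl ?_
  have h6 : (2 * n - n) * (Real.exp (K + 2 * δ ^ 2 * N - δ * (ε * N / 2)) * (D / (ε * N))) =
      D / ε * Real.exp (K + 2 * δ ^ 2 * N - δ * (ε * N / 2)) * (n / N) := by
    field_simp
    ring
  rw [h6]
  have h7 : n / N ≤ 1 := by rw [div_le_one hN0]; exact hN
  have h8 : 0 ≤ D / ε * Real.exp (K + 2 * δ ^ 2 * N - δ * (ε * N / 2)) := by positivity
  nlinarith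

/-- lower bound for the maximum -/
lemma low_J {n N γ δ ε : ℝ} {χ : ℝ → ℝ} (hε : 0 < ε) (hε3 : ε ≤ 1 / 3) (hεN : 2 ≤ ε * N)
    (hn : n = (1 - ε) * N) (hγ : 0 ≤ γ) (hδ : 0 ≤ δ) (hA : 0 ≤ A)
    (hL : ∀ i l l', 0 ≤ l → 0 ≤ l' → |G i l - G i l'| ≤ A * |l - l'|) (i : ι)
    (hχ : ContDiff ℝ ∞ χ) (hχ0 : ∀ x, 0 ≤ χ x) (hχ1 : ∀ x, |x| ≤ 1 / 2 → χ x = 1)
    (hG : (γ - δ ^ 2) * N ≤ G i N) :
    2 * Real.exp (-(δ ^ 2 * N) - (A + γ + 2 * δ)) ≤
      ∫ l in n..(2 * n), Real.exp (G i l) * wt γ δ ε N χ l := by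
  have hN6 : 6 ≤ N := by nlinarith
  have hN0 : 0 < N := by linarith
  have hnN : n ≤ N - 1 := by rw [hn]; nlinarith
  have hn2 : N + 1 ≤ 2 * n := by rw [hn]; nlinarith
  have hn1 : 1 ≤ n := by linarith
  have hn0 : 0 < n := by linarith
  have hle : n ≤ 2 * n := by linarith
  have hsub : Set.Icc n (2 * n) ⊆ Ici 0 := by
    intro x hx
    exact le_trans hn0.le hx.1
  have hw := wt_contDiff (γ := γ) (δ := δ) (ε := ε) (N := N) hχ
  have hw0 : ∀ l, 0 ≤ wt γ δ ε N χ l := fun l => mul_nonneg (Real.exp_pos _).le (hχ0 _)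
  have cF : ContinuousOn (fun l => Real.exp (G i l) * wt γ δ ε N χ l) (Set.Icc n (2 * n)) :=
    ((G_cont hL i).mono hsub).rexp.mul hw.continuous.continuousOn
  have iF : ∀ a b, n ≤ a → a ≤ b → b ≤ 2 * n → IntervalIntegrable
      (fun l => Real.exp (G i l) * wt γ δ ε N χ l) volume a b := by
    intro a b h1 h2 h3
    refine ContinuousOn.intervalIntegrable (cF.mono ?_)
    rw [Set.uIcc_of_le h2]
    exact Set.Icc_subset_Icc h1 h3
  have hF0 : ∀ l, 0 ≤ Real.exp (G i l) * wt γ δ ε N χ l := fun l =>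
    mul_nonneg (Real.exp_pos _).le (hw0 l)
  rw [← intervalIntegral.integral_add_adjacent_intervals
    (iF n (N - 1) le_rfl hnN (by linarith)) (iF (N - 1) (2 * n) hnN (by linarith) le_rfl),
    ← intervalIntegral.integral_add_adjacent_intervals
    (iF (N - 1) (N + 1) hnN (by linarith) hn2) (iF (N + 1) (2 * n) (by linarith) hn2 le_rfl)]
  have h1 : 0 ≤ ∫ l in n..(N - 1), Real.exp (G i l) * wt γ δ ε N χ l :=
    intervalIntegral.integral_nonneg hnN fun l _ => hF0 l
  have h2 : 0 ≤ ∫ l in (N + 1)..(2 * n), Real.exp (G i l) * wt γ δ ε N χ l :=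
    intervalIntegral.integral_nonneg hn2 fun l _ => hF0 l
  have h3 : ∫ _l in (N - 1)..(N + 1), Real.exp (-(δ ^ 2 * N) - (A + γ + 2 * δ)) ≤
      ∫ l in (N - 1)..(N + 1), Real.exp (G i l) * wt γ δ ε N χ l := by
    refine intervalIntegral.integral_mono_on (by linarith) (by simp)
      (iF (N - 1) (N + 1) hnN (by linarith) hn2) ?_
    intro l hl
    have ha : |l - N| ≤ 1 := abs_le.mpr ⟨by linarith [hl.1], by linarith [hl.2]⟩
    have hx : |(l - N) / (ε * N)| ≤ 1 / 2 := by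
      rw [abs_div, abs_of_pos (by positivity : 0 < ε * N), div_le_iff₀ (by positivity)]
      linarith
    have hs : Real.sqrt (1 + (l - N) ^ 2) ≤ 2 := by
      rw [Real.sqrt_le_left (by norm_num)]
      have : (l - N) ^ 2 ≤ 1 := by
        rw [← sq_abs]; nlinarith [abs_nonneg (l - N)]
      linarith
    unfold wt
    rw [hχ1 _ hx, mul_one, ← Real.exp_add]
    refine Real.exp_le_exp.mpr ?_
    have hb := hL i l N (by linarith [hl.1]) hN0.le
    have hc : G i N - A ≤ G i l := by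
      have := (abs_le.mp hb).1
      nlinarith
    have hd : γ * l ≤ γ * (N + 1) := mul_le_mul_of_nonneg_left hl.2 hγ
    have he : δ * Real.sqrt (1 + (l - N) ^ 2) ≤ δ * 2 := mul_le_mul_of_nonneg_left hs hδ
    nlinarith
  have h4 : ∫ _l in (N - 1)..(N + 1), Real.exp (-(δ ^ 2 * N) - (A + γ + 2 * δ)) =
      2 * Real.exp (-(δ ^ 2 * N) - (A + γ + 2 * δ)) := by
    rw [intervalIntegral.integral_const, smul_eq_mul]
    ring
  linarith

end window

end Pool.Agent.Helper96.CK
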