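import Pool.Agent.Helper96.CK.ExpMain

set_option autoImplicit false
open MeasureTheory Set Filter
open scoped Real Topology ContDiff

/-! The exponent lemma with all constants depending on `ε₁`. -/

namespace Pool.Agent.Helper96.CK

/-- the hypothesis of the lemma, all constants may depend on `ε₁` -/
def Window2 {ι : Type*} (G : ι → ℝ → ℝ) (θ : ℝ) : Prop :=
  ∀ ε₁ : ℝ, 0 < ε₁ → ∃ C₁ : ℝ, 0 ≤ C₁ ∧ ∀ n : ℝ, 1 ≤ n → ∀ w : ℝ → ℝ, ContDiff ℝ ∞ w →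
    (∀ l, 0 ≤ w l) → (∀ l, l ∉ Set.Icc n (2 * n) → w l = 0) → (∃ l, 0 < w l) →
    ∀ η : ℝ, 0 < η → ∃ i,
      (∀ j, (1 - η) * ∫ l in n..(2 * n), Real.exp (G j l) * w l ≤
        ∫ l in n..(2 * n), Real.exp (G i l) * w l) ∧
      ∫ l in n..(2 * n), Real.exp (G i l) * w l * G i l ≤
        (∫ l in n..(2 * n), Real.exp (G i l) * w l * (C₁ + ε₁ * n + C₁ * (l - n))) +
          (θ * n + C₁) * (∫ l in n..(2 * n), Real.exp (G i l) * |deriv w l|) + η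

/-- the real inequality at the end of the proof -/
lemma arith_end2 {J Rm n N γ δ ε ε₁ θ C₀ C₁ B₁ η S : ℝ} (hJ : 0 < J) (hN : 1 ≤ N)
    (hn : n = (1 - ε) * N) (hn1 : 1 ≤ n) (hγ : 0 ≤ γ) (hδ : 0 ≤ δ) (hε : 0 ≤ ε) (hε₁ : 0 ≤ ε₁) (hθ : 0 ≤ θ)
    (hC₁ : 0 ≤ C₁)
    (hJl : Real.exp (-(δ ^ 2 * N) - B₁) ≤ J) (hη : η ≤ Real.exp (-(δ ^ 2 * N) - B₁))
    (hRm : Rm ≤ J * S)
    (h : J * (Real.log J - Real.log n + γ * n) ≤
      J * (C₁ + ε₁ * n + C₀ * (2 * ε * N)) + (θ * n + C₁) * ((γ + δ) * J + Rm) + η) :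
    N * (γ * (1 - ε) - δ ^ 2 - ε₁ - 2 * C₀ * ε - θ * (γ + δ)) ≤
      C₁ + B₁ + Real.log N + C₁ * (γ + δ) + 1 + (θ * N + C₁) * max S 0 := by
  have hnN : n ≤ N := by rw [hn]; nlinarith
  have hlogJ : -(δ ^ 2 * N) - B₁ ≤ Real.log J := by
    rw [Real.le_log_iff_exp_le hJ]; exact hJl
  have hlogn : Real.log n ≤ Real.log N := Real.log_le_log (by linarith) hnN
  have h0 : 0 ≤ θ * n + C₁ := by positivity
  have h1 : (θ * n + C₁) * ((γ + δ) * J + Rm) ≤ J * ((θ * n + C₁) * ((γ + δ) + max S 0)) := by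
    have : (γ + δ) * J + Rm ≤ J * ((γ + δ) + max S 0) := by
      have : J * S ≤ J * max S 0 := mul_le_mul_of_nonneg_left (le_max_left _ _) hJ.le
      nlinarith
    calc _ ≤ (θ * n + C₁) * (J * ((γ + δ) + max S 0)) := mul_le_mul_of_nonneg_left this h0
      _ = _ := by ring
  have h2 : η ≤ J * 1 := by linarith
  have h3 : J * (Real.log J - Real.log n + γ * n) ≤
      J * (C₁ + ε₁ * n + C₀ * (2 * ε * N) + (θ * n + C₁) * ((γ + δ) + max S 0) + 1) := by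
    linarith
  have h4 := le_of_mul_le_mul_left h3 hJ
  have hm : 0 ≤ max S 0 := le_max_right _ _
  have h5 : (θ * n + C₁) * ((γ + δ) + max S 0) ≤ (θ * N + C₁) * ((γ + δ) + max S 0) := by
    refine mul_le_mul_of_nonneg_right ?_ (by positivity)
    nlinarith
  have h6 : ε₁ * n ≤ ε₁ * N := mul_le_mul_of_nonneg_left hnN hε₁
  have h7 : γ * n = γ * (1 - ε) * N := by rw [hn]; ring
  nlinarith


/-- one window: the inequality which will be violated for large `N` -/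
lemma one_window2 {ι : Type*} {G : ι → ℝ → ℝ} {A θ C₀ C₁ K γ δ ε ε₁ D N : ℝ} {χ : ℝ → ℝ}
    (hA0 : 0 ≤ A)
    (hL : ∀ i l l', 0 ≤ l → 0 ≤ l' → |G i l - G i l'| ≤ A * |l - l'|)
    (hε₁ : 0 ≤ ε₁) (hθ0 : 0 ≤ θ) (hC₀ : 0 ≤ C₀) (hC₁ : 0 ≤ C₁) (hγ : 0 ≤ γ)
    (hδ : δ = ε / 12) (hε : 0 < ε) (hε3 : ε ≤ 1 / 3) (hεN : 2 ≤ ε * N)
    (hχ : ContDiff ℝ ∞ χ) (hχ0 : ∀ x, 0 ≤ χ x) (hχ1 : ∀ x, |x| ≤ 1 / 2 → χ x = 1)
    (hχle : ∀ x, χ x ≤ 1) (hχs : ∀ x, 1 ≤ |x| → χ x = 0)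
    (hD : ∀ x, |deriv χ x| ≤ D) (hin : ∀ x, |x| < 1 / 2 → deriv χ x = 0)
    (hK : ∀ i l, 0 ≤ l → G i l ≤ K + (γ + δ ^ 2) * l)
    {i₀ : ι} (hG : (γ - δ ^ 2) * N ≤ G i₀ N)
    (H : ∀ n : ℝ, 1 ≤ n → ∀ w : ℝ → ℝ, ContDiff ℝ ∞ w →
      (∀ l, 0 ≤ w l) → (∀ l, l ∉ Set.Icc n (2 * n) → w l = 0) → (∃ l, 0 < w l) →
      ∀ η : ℝ, 0 < η → ∃ i,
        (∀ j, (1 - η) * ∫ l in n..(2 * n), Real.exp (G j l) * w l ≤
          ∫ l in n..(2 * n), Real.exp (G i l) * w l) ∧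
        ∫ l in n..(2 * n), Real.exp (G i l) * w l * G i l ≤
          (∫ l in n..(2 * n), Real.exp (G i l) * w l * (C₁ + ε₁ * n + C₀ * (l - n))) +
            (θ * n + C₁) * (∫ l in n..(2 * n), Real.exp (G i l) * |deriv w l|) + η) :
    N * (γ * (1 - ε) - δ ^ 2 - ε₁ - 2 * C₀ * ε - θ * (γ + δ)) ≤
      C₁ + (A + γ + 2 * δ) + Real.log N + C₁ * (γ + δ) + 1 +
        (θ * N + C₁) * (D / ε * Real.exp (K + (A + γ + 2 * δ) - δ * ε / 4 * N)) := by
  have hδ0 : 0 ≤ δ := by rw [hδ]; positivity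
  have hD0 : 0 ≤ D := (abs_nonneg _).trans (hD 0)
  have hN6 : 6 ≤ N := by nlinarith
  have hN0 : 0 < N := by linarith
  obtain ⟨n, hn⟩ : ∃ n, n = (1 - ε) * N := ⟨_, rfl⟩
  have hnN : n ≤ N - 1 := by rw [hn]; nlinarith
  have hn2 : N + 1 ≤ 2 * n := by rw [hn]; nlinarith
  have hn1 : 1 ≤ n := by linarith
  have hn0 : 0 < n := by linarith
  have hle : n ≤ 2 * n := by linarith
  have hpos : 0 < ε * N := by positivity
  set w := wt γ δ ε N χ with hwdef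
  have hw : ContDiff ℝ ∞ w := wt_contDiff hχ
  have hw0 : ∀ l, 0 ≤ w l := fun l => mul_nonneg (Real.exp_pos _).le (hχ0 _)
  have hws1 : ∀ l, (1 + ε) * N < l → w l = 0 := by
    intro l hl
    have : 1 ≤ |(l - N) / (ε * N)| := by
      rw [abs_div, abs_of_pos hpos, le_div_iff₀ hpos, one_mul]
      refine le_trans ?_ (le_abs_self _)
      linarith
    simp [hwdef, wt, hχs _ this]
  have hws2 : ∀ l, l < n → w l = 0 := by
    intro l hl
    have : 1 ≤ |(l - N) / (ε * N)| := by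
      rw [abs_div, abs_of_pos hpos, le_div_iff₀ hpos, one_mul]
      refine le_trans ?_ (neg_le_abs _)
      rw [hn] at hl
      linarith
    simp [hwdef, wt, hχs _ this]
  have hws : ∀ l, l ∉ Set.Icc n (2 * n) → w l = 0 := by
    intro l hl
    rw [Set.mem_Icc, not_and_or, not_le, not_le] at hl
    rcases hl with h | h
    · exact hws2 l h
    · refine hws1 l (lt_of_le_of_lt ?_ h)
      rw [hn]
      nlinarith
  have hwp : ∃ l, 0 < w l := by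
    refine ⟨N, ?_⟩
    have : χ ((N - N) / (ε * N)) = 1 := hχ1 _ (by simp)
    simp only [hwdef, wt, this, mul_one]
    exact Real.exp_pos _
  have hwe : ∀ l, w l ≤ Real.exp (-(γ * l)) := by
    intro l
    calc w l ≤ Real.exp (-(γ * l) - δ * Real.sqrt (1 + (l - N) ^ 2)) * 1 :=
          mul_le_mul_of_nonneg_left (hχle _) (Real.exp_pos _).le
      _ ≤ Real.exp (-(γ * l)) := by
          rw [mul_one]
          refine Real.exp_le_exp.mpr ?_
          have : 0 ≤ δ * Real.sqrt (1 + (l - N) ^ 2) := by positivity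
          linarith
  have hwd : ∀ l, |deriv w l| ≤ (γ + δ) * w l +
      Real.exp (-(γ * l) - δ * (ε * N / 2)) * (D / (ε * N)) := fun l =>
    wt_deriv_le hγ hδ0 hε hN0 (hχ.differentiable (by simp)) hχ0 hD hin l
  set B₁ := A + γ + 2 * δ with hB₁
  obtain ⟨η, hη⟩ : ∃ η, η = min (1 / 2) (Real.exp (-(δ ^ 2 * N) - B₁)) := ⟨_, rfl⟩
  have hη0 : 0 < η := by rw [hη]; exact lt_min (by norm_num) (Real.exp_pos _)
  have hη1 : η ≤ 1 / 2 := by rw [hη]; exact min_le_left _ _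
  have hη2 : η ≤ Real.exp (-(δ ^ 2 * N) - B₁) := by rw [hη]; exact min_le_right _ _
  obtain ⟨i, hi1, hi2⟩ := H n hn1 w hw hw0 hws hwp η hη0
  have hlow := low_J (A := A) hε hε3 hεN hn hγ hδ0 hA0 hL i₀ hχ hχ0 hχ1 hG
  set J := ∫ l in n..(2 * n), Real.exp (G i l) * w l with hJdef
  have hJl : Real.exp (-(δ ^ 2 * N) - B₁) ≤ J := by
    have h1 := hi1 i₀
    have h2 : (1 - η) * (2 * Real.exp (-(δ ^ 2 * N) - B₁)) ≤
        (1 - η) * ∫ l in n..(2 * n), Real.exp (G i₀ l) * w l :=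
      mul_le_mul_of_nonneg_left hlow (by linarith)
    have h3 : Real.exp (-(δ ^ 2 * N) - B₁) ≤ (1 - η) * (2 * Real.exp (-(δ ^ 2 * N) - B₁)) := by
      have := Real.exp_pos (-(δ ^ 2 * N) - B₁)
      nlinarith
    linarith
  have hJ0 : 0 < J := lt_of_lt_of_le (Real.exp_pos _) hJl
  have h1 := lower_int hn1 hγ hL i hw.continuous hw0 hwe hJ0
  have h2 := upper_int1 (ε₁ := ε₁) (C₁ := C₁) hn1 hn hC₀ hL i hw.continuous hw0 hws1
  have h3 := upper_int2 hn1 (by linarith : n ≤ N) hε hD0 hL i (hK i) hw hwd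
  rw [← hJdef] at h1 h2 h3
  set Rm := D / ε * Real.exp (K + 2 * δ ^ 2 * N - δ * (ε * N / 2)) with hRm
  have hS : Rm ≤ J * (D / ε * Real.exp (K + B₁ - δ * ε / 4 * N)) := by
    have h4 : Rm = Real.exp (-(δ ^ 2 * N) - B₁) *
        (D / ε * Real.exp (K + B₁ - δ * ε / 4 * N)) := by
      rw [hRm, mul_left_comm, ← Real.exp_add]
      congr 2
      rw [hδ]
      ring
    rw [h4]
    exact mul_le_mul_of_nonneg_right hJl (by positivity)
  have h0 : 0 ≤ θ * n + C₁ := by positivity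
  have hfin : J * (Real.log J - Real.log n + γ * n) ≤
      J * (C₁ + ε₁ * n + C₀ * (2 * ε * N)) + (θ * n + C₁) * ((γ + δ) * J + Rm) + η := by
    have h5 := mul_le_mul_of_nonneg_left h3 h0
    linarith
  have hend := arith_end2 (B₁ := B₁) hJ0 (by linarith) hn hn1 hγ hδ0 hε.le hε₁ hθ0 hC₁ hJl hη2 hS hfin
  rw [max_eq_left (by positivity)] at hend
  exact hend

/-- **Exponent bookkeeping.** -/
theorem exp_lemma2 {ι : Type*} {G : ι → ℝ → ℝ} {A θ : ℝ} (hA0 : 0 ≤ A)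
    (hA : ∀ i, G i 0 ≤ A)
    (hL : ∀ i l l', 0 ≤ l → 0 ≤ l' → |G i l - G i l'| ≤ A * |l - l'|)
    (hθ0 : 0 ≤ θ) (hθ : θ < 1) (H : Window2 G θ) :
    ∀ e : ℝ, 0 < e → ∃ K : ℝ, ∀ i l, 0 ≤ l → G i l ≤ K + e * l := by
  by_contra hcon
  push Not at hcon
  obtain ⟨e, he, hcon⟩ := hcon
  set E : Set ℝ := {e | 0 ≤ e ∧ ∃ K : ℝ, ∀ i l, 0 ≤ l → G i l ≤ K + e * l} with hE
  have hup : ∀ a b, a ∈ E → a ≤ b → b ∈ E := by
    rintro a b ⟨ha, K, hK⟩ hab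
    refine ⟨ha.trans hab, K, fun i l hl => (hK i l hl).trans ?_⟩
    have := mul_le_mul_of_nonneg_right hab hl
    linarith
  have hAE : A ∈ E := by
    refine ⟨hA0, A, fun i l hl => ?_⟩
    have h1 := (abs_le.mp (hL i l 0 hl le_rfl)).2
    rw [sub_zero, abs_of_nonneg hl] at h1
    linarith [hA i]
  have hbdd : BddBelow E := ⟨0, fun x hx => hx.1⟩
  obtain ⟨γ, hγdef⟩ : ∃ γ, γ = sInf E := ⟨_, rfl⟩
  have hγe : e ≤ γ := by
    rw [hγdef]
    refine le_csInf ⟨A, hAE⟩ fun a ha => ?_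
    by_contra hlt
    push Not at hlt
    obtain ⟨-, K, hK⟩ := hup a e ha hlt.le
    obtain ⟨i, l, hl, h⟩ := hcon K
    exact absurd (hK i l hl) (not_le.mpr h)
  have hγ0 : 0 < γ := lt_of_lt_of_le he hγe
  -- the parameters
  have h1θ : 0 < 1 - θ := by linarith
  obtain ⟨ε₁, hε₁def⟩ : ∃ ε₁, ε₁ = γ * (1 - θ) / 4 := ⟨_, rfl⟩
  have hε₁ : 0 < ε₁ := by rw [hε₁def]; positivity
  obtain ⟨C₁, hC₁, HC⟩ := H ε₁ hε₁
  set ε : ℝ := min (1 / 3) (γ * (1 - θ) / (4 * (γ + 3 + 2 * C₁))) with hεdef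
  have hden : 0 < γ + 3 + 2 * C₁ := by positivity
  have hε : 0 < ε := by
    rw [hεdef]
    exact lt_min (by norm_num) (by positivity)
  have hε3 : ε ≤ 1 / 3 := min_le_left _ _
  have hε4 : ε * (γ + 3 + 2 * C₁) ≤ γ * (1 - θ) / 4 := by
    have : ε ≤ γ * (1 - θ) / (4 * (γ + 3 + 2 * C₁)) := min_le_right _ _
    rw [le_div_iff₀ (by positivity)] at this
    linarith
  set δ : ℝ := ε / 12 with hδdef
  have hδ0 : 0 < δ := by positivity
  have hδε : δ ≤ ε / 12 := le_rfl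
  have hδsq : δ ^ 2 ≤ ε := by
    rw [hδdef]; nlinarith
  have hεγ : ε < γ := by
    have h1 : ε * 3 ≤ ε * (γ + 3 + 2 * C₁) := mul_le_mul_of_nonneg_left (by linarith) hε.le
    have h2 : γ * (1 - θ) / 4 ≤ γ / 4 := by nlinarith
    linarith
  set β : ℝ := γ * (1 - ε) - δ ^ 2 - ε₁ - 2 * C₁ * ε - θ * (γ + δ) with hβdef
  have hβ : 0 < β := by
    have h1 : θ * δ ≤ ε := by
      have : θ * δ ≤ 1 * δ := mul_le_mul_of_nonneg_right hθ.le hδ0.le
      linarith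
    have h2 : 0 < γ * (1 - θ) / 4 := by positivity
    have h3 : β = γ * (1 - θ) - ε₁ - (ε * (γ + 2 * C₁) + δ ^ 2 + θ * δ) := by
      rw [hβdef]; ring
    have h4 : ε * (γ + 3 + 2 * C₁) = ε * (γ + 2 * C₁) + 3 * ε := by ring
    linarith
  -- upper bound
  have hplus : γ + δ ^ 2 ∈ E := by
    have : sInf E < γ + δ ^ 2 := by rw [← hγdef]; nlinarith
    obtain ⟨a, ha, hlt⟩ := exists_lt_of_csInf_lt ⟨A, hAE⟩ this
    exact hup a _ ha hlt.le
  obtain ⟨-, K, hK⟩ := hplus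
  have hminus : γ - δ ^ 2 ∉ E := by
    intro hm
    have h1 := csInf_le hbdd hm
    rw [← hγdef] at h1
    nlinarith
  obtain ⟨χ, D, b1, b2, b3, b4, b5, b6, b7⟩ := exists_bump
  have hD0 : 0 ≤ D := (abs_nonneg _).trans (b6 0)
  set Q : ℝ := C₁ + (A + γ + 2 * δ) + C₁ * (γ + δ) + 1 with hQ
  set S : ℝ → ℝ := fun N => D / ε * Real.exp (K + (A + γ + 2 * δ) - δ * ε / 4 * N) with hS
  have hSlim : Tendsto S atTop (𝓝 0) := by
    have h1 : Tendsto (fun N : ℝ => K + (A + γ + 2 * δ) - δ * ε / 4 * N) atTop atBot := by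
      refine tendsto_const_nhds.add_atBot ?_ |>.congr fun N => (sub_eq_add_neg _ _).symm
      exact tendsto_neg_atTop_atBot.comp
        (tendsto_id.const_mul_atTop (by positivity : 0 < δ * ε / 4))
    have h2 := (Real.tendsto_exp_atBot.comp h1).const_mul (D / ε)
    simpa using h2
  have e1 : ∀ᶠ N in atTop, Real.log N ≤ β / 8 * N := by
    have := Real.isLittleO_log_id_atTop.bound (show (0:ℝ) < β / 8 by positivity)
    filter_upwards [this, eventually_ge_atTop (1:ℝ)] with N h1 h2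
    simp only [id, Real.norm_eq_abs] at h1
    rw [abs_of_nonneg (by linarith : (0:ℝ) ≤ N)] at h1
    exact (le_abs_self _).trans h1
  have e2 : ∀ᶠ N in atTop, Q ≤ β / 8 * N :=
    (tendsto_id.const_mul_atTop (by positivity : 0 < β / 8)).eventually_ge_atTop Q
  have e3 : ∀ᶠ N in atTop, θ * S N ≤ β / 8 := by
    have h1 : Tendsto (fun N => θ * S N) atTop (𝓝 (θ * 0)) := hSlim.const_mul θ
    rw [mul_zero] at h1
    exact h1.eventually_le_const (by positivity)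
  have e4 : ∀ᶠ N in atTop, C₁ * S N ≤ β / 8 := by
    have h1 : Tendsto (fun N => C₁ * S N) atTop (𝓝 (C₁ * 0)) := hSlim.const_mul C₁
    rw [mul_zero] at h1
    exact h1.eventually_le_const (by positivity)
  obtain ⟨N₀, hN₀⟩ := eventually_atTop.mp (e1.and (e2.and (e3.and (e4.and
    ((tendsto_id.const_mul_atTop hε).eventually_ge_atTop (2:ℝ) |>.and
      (eventually_ge_atTop (1:ℝ)))))))
  obtain ⟨i₀, N, hN0, hNG⟩ : ∃ i₀ N, 0 ≤ N ∧ |K| + 2 * δ ^ 2 * |N₀| + (γ - δ ^ 2) * N < G i₀ N := by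
    by_contra hno
    push Not at hno
    exact hminus ⟨by nlinarith, |K| + 2 * δ ^ 2 * |N₀|, fun i l hl => hno i l hl⟩
  have hNN : N₀ ≤ N := by
    have h1 := hK i₀ N hN0
    have h2 : 2 * δ ^ 2 * |N₀| < 2 * δ ^ 2 * N := by
      have := le_abs_self K
      linarith
    have h3 : |N₀| < N := lt_of_mul_lt_mul_left h2 (by positivity)
    exact (le_abs_self _).trans h3.le
  obtain ⟨f1, f2, f3, f4, f5, f6⟩ := hN₀ N hNN
  have hG : (γ - δ ^ 2) * N ≤ G i₀ N := by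
    have : 0 ≤ |K| + 2 * δ ^ 2 * |N₀| := by positivity
    linarith
  have f5' : 2 ≤ ε * N := f5
  have hmain := one_window2 hA0 hL hε₁.le hθ0 hC₁ hC₁ hγ0.le hδdef hε hε3 f5' b1 b2 b3 b4 b5 b6 b7 hK hG HC
  have hS0 : 0 ≤ S N := by simp only [hS]; positivity
  have g1 : (θ * N + C₁) * S N ≤ β / 8 * N + β / 8 := by
    have : θ * S N * N ≤ β / 8 * N := mul_le_mul_of_nonneg_right f3 hN0
    nlinarith
  have g2 : N * β ≤ Q + Real.log N + (θ * N + C₁) * S N := by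
    rw [← hβdef] at hmain
    simp only [hS, hQ]
    linarith
  nlinarith

end Pool.Agent.Helper96.CK
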